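import Mathlib

/-!
Numerical estimates for the block lemma in all arities (MP_023469).
-/

set_option autoImplicit false

open Filter

namespace Pool.Agent.Helper70.MC

/-- `2 (Q - 1) ^ Q ≤ Q ^ Q`. -/
theorem two_mul_pred_pow_le (Q : ℕ) (hQ : 1 ≤ Q) : 2 * (Q - 1) ^ Q ≤ Q ^ Q := by
  obtain ⟨p, rfl⟩ : ∃ p, Q = p + 1 := ⟨Q - 1, by omega⟩
  simp only [Nat.add_sub_cancel]
  rcases Nat.eq_zero_or_pos p with rfl | hp
  · simp
  have h1 : (1 + (p + 1) * (1 / (p : ℝ))) ≤ (1 + 1 / (p : ℝ)) ^ (p + 1) := by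
    have := one_add_mul_le_pow (a := 1 / (p : ℝ)) (by
      have : (0 : ℝ) ≤ 1 / (p : ℝ) := by positivity
      linarith) (p + 1)
    push_cast at this
    exact this
  have hp' : (0 : ℝ) < p := by exact_mod_cast hp
  have h2 : (2 : ℝ) ≤ (1 + 1 / (p : ℝ)) ^ (p + 1) := by
    refine le_trans ?_ h1
    have : (p + 1) * (1 / (p : ℝ)) = 1 + 1 / p := by field_simp
    rw [this]
    have : (0 : ℝ) ≤ 1 / (p : ℝ) := by positivity
    linarith
  have h3 : (2 : ℝ) * (p : ℝ) ^ (p + 1) ≤ ((p : ℝ) + 1) ^ (p + 1) := by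
    calc (2 : ℝ) * (p : ℝ) ^ (p + 1) ≤ (1 + 1 / (p : ℝ)) ^ (p + 1) * (p : ℝ) ^ (p + 1) := by
          gcongr
      _ = ((p : ℝ) + 1) ^ (p + 1) := by
          rw [← mul_pow]
          congr 1
          field_simp
  exact_mod_cast h3

/-- The inequality for the hitting set: `M (Q - 1) ^ m < Q ^ m` for `m = Q (log M + 1)`. -/
theorem hit_num (M Q : ℕ) (hQ : 1 ≤ Q) :
    M * (Q - 1) ^ (Q * (Nat.log 2 M + 1)) < Q ^ (Q * (Nat.log 2 M + 1)) := by
  set L := Nat.log 2 M + 1 with hL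
  have h1 : M < 2 ^ L := Nat.lt_pow_succ_log_self (by norm_num) M
  rcases Nat.eq_zero_or_pos ((Q - 1) ^ (Q * L)) with h0 | h0
  · rw [h0, mul_zero]
    exact pow_pos (by omega) _
  calc M * (Q - 1) ^ (Q * L) < 2 ^ L * (Q - 1) ^ (Q * L) := Nat.mul_lt_mul_of_pos_right h1 h0
    _ = (2 * (Q - 1) ^ Q) ^ L := by rw [mul_pow, ← pow_mul]
    _ ≤ (Q ^ Q) ^ L := Nat.pow_le_pow_left (two_mul_pred_pow_le Q hQ) L
    _ = Q ^ (Q * L) := by rw [← pow_mul]

/-- A linear function of `log n` is smaller than a power of `n`. -/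
theorem log_lt_rpow (A B δ : ℝ) (hδ : 0 < δ) :
    ∀ᶠ n : ℕ in atTop, A + B * Real.log n < (n : ℝ) ^ δ := by
  have h1 : ∀ᶠ x : ℝ in atTop, ‖Real.log x‖ ≤ (1 / (2 * (|B| + 1))) * ‖x ^ δ‖ :=
    (isLittleO_log_rpow_atTop hδ).def (by positivity)
  have h2 : ∀ᶠ x : ℝ in atTop, 2 * |A| + 1 ≤ x ^ δ :=
    (tendsto_rpow_atTop hδ).eventually_ge_atTop _
  have h3 : ∀ᶠ x : ℝ in atTop, A + B * Real.log x < x ^ δ := by
    filter_upwards [h1, h2, eventually_ge_atTop 1] with x hx hy hx1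
    have hpos : 0 < x ^ δ := Real.rpow_pos_of_pos (by linarith) _
    rw [Real.norm_eq_abs, Real.norm_eq_abs, abs_of_pos hpos] at hx
    have h4 : B * Real.log x ≤ |B| * |Real.log x| := by
      rw [← abs_mul]; exact le_abs_self _
    have h5 : |B| * |Real.log x| ≤ x ^ δ / 2 := by
      calc |B| * |Real.log x| ≤ |B| * ((1 / (2 * (|B| + 1))) * x ^ δ) := by gcongr
        _ = (|B| / (|B| + 1)) * (x ^ δ / 2) := by field_simp
        _ ≤ 1 * (x ^ δ / 2) := by
            gcongr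
            rw [div_le_one (by positivity)]
            linarith
        _ = x ^ δ / 2 := one_mul _
    have h6 := le_abs_self A
    linarith
  exact tendsto_natCast_atTop_atTop.eventually h3

/-- The number of pairs of tuples with a set of positions. -/
theorem card_le {S : Type} [Fintype S] (ar : S → ℕ) (r n : ℕ) (hr : ∀ s, ar s ≤ r) (hn : 1 ≤ n) :
    Nat.card (Σ s, Finset (Fin (ar s)) × (Fin (ar s) → Fin n) × (Fin (ar s) → Fin n)) ≤
      Fintype.card S * 2 ^ r * n ^ (2 * r) := by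
  classical
  rw [Nat.card_eq_fintype_card, Fintype.card_sigma]
  calc ∑ s, Fintype.card (Finset (Fin (ar s)) × (Fin (ar s) → Fin n) × (Fin (ar s) → Fin n))
      ≤ ∑ _s : S, 2 ^ r * n ^ (2 * r) := by
        refine Finset.sum_le_sum fun s _ => ?_
        rw [Fintype.card_prod, Fintype.card_prod, Fintype.card_finset, Fintype.card_fin,
          Fintype.card_fun, Fintype.card_fin, Fintype.card_fin]
        have h1 : n ^ ar s ≤ n ^ r := Nat.pow_le_pow_right hn (hr s)
        calc 2 ^ ar s * (n ^ ar s * n ^ ar s) ≤ 2 ^ r * (n ^ r * n ^ r) := by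
              gcongr
              · norm_num
              · exact hr s
          _ = 2 ^ r * n ^ (2 * r) := by rw [two_mul, pow_add]
    _ = Fintype.card S * 2 ^ r * n ^ (2 * r) := by
        rw [Finset.sum_const, Finset.card_univ, smul_eq_mul, mul_assoc]

/-- The threshold `b` is smaller than any power of `n`. -/
theorem bound_lt {S : Type} [Fintype S] (ar : S → ℕ) (r g Q c d : ℕ) (hr : ∀ s, ar s ≤ r)
    (δ : ℝ) (hδ : 0 < δ) :
    ∀ᶠ n : ℕ in atTop,
      ((c * (Q * (Nat.log 2 (Nat.card (Σ s, Finset (Fin (ar s)) × (Fin (ar s) → Fin n) ×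
        (Fin (ar s) → Fin n)) * g) + 1)) + d : ℕ) : ℝ) < (n : ℝ) ^ δ := by
  set C : ℝ := Real.log ((Fintype.card S * 2 ^ r * g + 1 : ℕ) : ℝ) with hC
  have hl2 : 0 < Real.log 2 := Real.log_pos (by norm_num)
  filter_upwards [log_lt_rpow (c * (Q * (C / Real.log 2 + 1)) + d)
    (c * (Q * (2 * r / Real.log 2))) δ hδ, eventually_ge_atTop 1] with n hn hn1
  refine lt_of_le_of_lt ?_ hn
  set M := Nat.card (Σ s, Finset (Fin (ar s)) × (Fin (ar s) → Fin n) × (Fin (ar s) → Fin n)) * g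
    with hM
  have h1 : (Nat.log 2 M : ℝ) ≤ (C + 2 * r * Real.log n) / Real.log 2 := by
    rw [le_div_iff₀ hl2]
    rcases Nat.eq_zero_or_pos M with h0 | h0
    · rw [h0]
      have h2 : 0 ≤ Real.log n := Real.log_nonneg (by exact_mod_cast hn1)
      have h3 : 0 ≤ C := Real.log_nonneg (by
        have : 1 ≤ Fintype.card S * 2 ^ r * g + 1 := by omega
        exact_mod_cast this)
      simp only [Nat.log_zero_right, Nat.cast_zero, zero_mul]
      positivity
    · have h2 : (2 : ℝ) ^ Nat.log 2 M ≤ M := by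
        exact_mod_cast Nat.pow_log_le_self 2 h0.ne'
      have h3 : (Nat.log 2 M : ℝ) * Real.log 2 ≤ Real.log M := by
        rw [← Real.log_pow]
        exact Real.log_le_log (by positivity) h2
      have h4 : M ≤ (Fintype.card S * 2 ^ r * g + 1) * n ^ (2 * r) := by
        calc M ≤ (Fintype.card S * 2 ^ r * n ^ (2 * r)) * g := by
              rw [hM]
              exact Nat.mul_le_mul_right g (card_le ar r n hr hn1)
          _ = (Fintype.card S * 2 ^ r * g) * n ^ (2 * r) := by ring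
          _ ≤ (Fintype.card S * 2 ^ r * g + 1) * n ^ (2 * r) := by
              gcongr
              omega
      have h5 : Real.log M ≤ C + 2 * r * Real.log n := by
        have h6 : (M : ℝ) ≤ ((Fintype.card S * 2 ^ r * g + 1 : ℕ) : ℝ) * (n : ℝ) ^ (2 * r) := by
          exact_mod_cast h4
        have h7 : (0 : ℝ) < n := by exact_mod_cast hn1
        calc Real.log M ≤ Real.log (((Fintype.card S * 2 ^ r * g + 1 : ℕ) : ℝ) *
              (n : ℝ) ^ (2 * r)) := Real.log_le_log (by exact_mod_cast h0) h6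
          _ = C + 2 * r * Real.log n := by
              rw [Real.log_mul (by positivity) (by positivity), Real.log_pow, hC]
              push_cast
              ring
      linarith
  push_cast
  have h8 : (Nat.log 2 M : ℝ) + 1 ≤ (C / Real.log 2 + 1) + (2 * r / Real.log 2) * Real.log n := by
    have : (C + 2 * r * Real.log n) / Real.log 2 =
      C / Real.log 2 + (2 * r / Real.log 2) * Real.log n := by ring
    linarith
  have h9 : (c : ℝ) * (Q * ((Nat.log 2 M : ℝ) + 1)) ≤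
      c * (Q * ((C / Real.log 2 + 1) + (2 * r / Real.log 2) * Real.log n)) := by
    gcongr
  linarith [h9]

/-- The numerical estimates. -/
theorem numerics {S : Type} [Fintype S] (ar : S → ℕ) (r k q : ℕ) (hr : ∀ s, ar s ≤ r) (ε : ℝ)
    (hε : 0 < ε) : ∀ᶠ n : ℕ in atTop, ∀ N g m b : ℕ,
      N = Nat.card (Σ s, Finset (Fin (ar s)) × (Fin (ar s) → Fin n) × (Fin (ar s) → Fin n)) →
      g = ⌈2 / ε⌉₊ + 1 → m = g ^ r * (Nat.log 2 (N * g) + 1) →
      b = 2 * m * r * r + q * k * k + 1 →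
      N * g * (g ^ r - 1) ^ m < (g ^ r) ^ m ∧
      ((n ^ (n / g) * b ^ n * n ^ (n / (k + 1)) : ℕ) : ℝ) <
        (n : ℝ) ^ ((1 / ((k : ℝ) + 1) + ε) * n) := by
  filter_upwards [bound_lt ar r (⌈2 / ε⌉₊ + 1) ((⌈2 / ε⌉₊ + 1) ^ r) (2 * r * r) (q * k * k + 1) hr
    (ε / 2) (by positivity), eventually_ge_atTop 2] with n hn hn2 N g m b hN hg hm hb
  have hg0 : 1 ≤ g ^ r := Nat.one_le_pow _ _ (by omega)
  refine ⟨?_, ?_⟩
  · rw [hm]
    exact hit_num (N * g) (g ^ r) hg0
  · have hn0 : (0 : ℝ) < n := by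
      have : 0 < n := by omega
      exact_mod_cast this
    have hn1 : (1 : ℝ) < n := by
      have : 1 < n := by omega
      exact_mod_cast this
    have hbn : (b : ℝ) < (n : ℝ) ^ (ε / 2) := by
      refine lt_of_eq_of_lt ?_ hn
      rw [← hg, ← hN]
      norm_cast
      rw [hb, hm]
      ring
    have h1 : ((n : ℝ) ^ (n / g)) ≤ (n : ℝ) ^ (ε / 2 * n) := by
      rw [← Real.rpow_natCast]
      refine Real.rpow_le_rpow_of_exponent_le hn1.le ?_
      have h2 : ((n / g : ℕ) : ℝ) ≤ (n : ℝ) / g := Nat.cast_div_le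
      have h3 : (2 / ε) ≤ g := by
        have := Nat.le_ceil (2 / ε)
        rw [hg]
        push_cast
        linarith
      have hgp : (0 : ℝ) < g := lt_of_lt_of_le (by positivity) h3
      have h4 : (n : ℝ) / g ≤ ε / 2 * n := by
        rw [div_le_iff₀ hgp]
        have : 1 ≤ ε / 2 * g := by
          calc (1 : ℝ) = ε / 2 * (2 / ε) := by field_simp
            _ ≤ ε / 2 * g := by gcongr
        nlinarith
      linarith
    have h2 : ((n : ℝ) ^ (n / (k + 1))) ≤ (n : ℝ) ^ (1 / ((k : ℝ) + 1) * n) := by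
      rw [← Real.rpow_natCast]
      refine Real.rpow_le_rpow_of_exponent_le hn1.le ?_
      have h2 : ((n / (k + 1) : ℕ) : ℝ) ≤ (n : ℝ) / ((k + 1 : ℕ) : ℝ) := Nat.cast_div_le
      push_cast at h2
      rw [one_div, inv_mul_eq_div]
      exact h2
    have h3 : (b : ℝ) ^ n < (n : ℝ) ^ (ε / 2 * n) := by
      rw [Real.rpow_mul hn0.le, Real.rpow_natCast]
      exact pow_lt_pow_left₀ hbn (by positivity) (by omega)
    push_cast
    calc (n : ℝ) ^ (n / g) * (b : ℝ) ^ n * (n : ℝ) ^ (n / (k + 1))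
        < (n : ℝ) ^ (ε / 2 * n) * (n : ℝ) ^ (ε / 2 * n) * (n : ℝ) ^ (1 / ((k : ℝ) + 1) * n) := by
          have hp1 : (0 : ℝ) < (n : ℝ) ^ (n / g) := by positivity
          have hp2 : (0 : ℝ) < (n : ℝ) ^ (n / (k + 1)) := by positivity
          have hp3 : (0 : ℝ) < (n : ℝ) ^ (ε / 2 * n) := by positivity
          calc (n : ℝ) ^ (n / g) * (b : ℝ) ^ n * (n : ℝ) ^ (n / (k + 1))
              < (n : ℝ) ^ (n / g) * (n : ℝ) ^ (ε / 2 * n) * (n : ℝ) ^ (n / (k + 1)) := by
                gcongr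
            _ ≤ _ := by gcongr
      _ = (n : ℝ) ^ ((1 / ((k : ℝ) + 1) + ε) * n) := by
          rw [← Real.rpow_add hn0, ← Real.rpow_add hn0]
          congr 1
          ring

end Pool.Agent.Helper70.MC
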